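import Pool.Agent.H21.ASY.Stmts

/-!
# ASY, row MUL: a nonnegative multiplicative function with bounded local sums is summable
-/

set_option autoImplicit false

namespace Pool.ASY

theorem mul_thm : S_MUL := by
  classical
  intro f B hf f0 f1 hmul hloc hB
  have hsum : ∀ {p : ℕ}, p.Prime → Summable (fun n : ℕ => f (p ^ n)) := by
    intro p hp
    exact (summable_nat_add_iff 1).1 (hloc p hp)
  refine summable_of_sum_le (c := Real.exp B) hf fun u => ?_
  obtain ⟨N, hN⟩ : ∃ N : ℕ, ∀ n ∈ u, n < N := by
    refine ⟨u.sup id + 1, fun n hn => ?_⟩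
    exact Nat.lt_succ_of_le (Finset.le_sup (f := id) hn)
  have hEP := (EulerProduct.summable_and_hasSum_smoothNumbers_prod_primesBelow_tsum
    (f := f) f1 (fun {m n} h => hmul m n h) (by
      intro p hp
      refine (hsum hp).congr fun n => ?_
      rw [Real.norm_of_nonneg (hf _)]) N).2
  have h1 : ∑ n ∈ u, f n ≤ ∏ p ∈ N.primesBelow, ∑' n : ℕ, f (p ^ n) := by
    have h2 := sum_le_hasSum
      ((u.erase 0).subtype (fun n => n ∈ Nat.smoothNumbers N))
      (fun i _ => hf i) hEP
    refine le_trans (le_of_eq ?_) h2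
    rw [Finset.sum_subtype_of_mem (f := fun n : ℕ => f n)]
    · by_cases h0 : 0 ∈ u
      · rw [← Finset.add_sum_erase u f h0, f0, zero_add]
      · rw [Finset.erase_eq_of_notMem h0]
    · intro n hn
      rw [Finset.mem_erase] at hn
      rw [Nat.mem_smoothNumbers]
      refine ⟨hn.1, fun p hp => ?_⟩
      have := Nat.le_of_mem_primeFactorsList hp
      have := hN n hn.2
      omega
  refine h1.trans ?_
  calc ∏ p ∈ N.primesBelow, ∑' n : ℕ, f (p ^ n)
      ≤ ∏ p ∈ N.primesBelow, Real.exp (∑' e : ℕ, f (p ^ (e + 1))) := by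
        refine Finset.prod_le_prod (fun p _ => tsum_nonneg fun n => hf _) ?_
        intro p hp
        have hpp : p.Prime := by
          simp only [Nat.primesBelow, Finset.mem_filter] at hp
          exact hp.2
        rw [(hsum hpp).tsum_eq_zero_add, pow_zero, f1, add_comm]
        exact Real.add_one_le_exp _
    _ = Real.exp (∑ p ∈ N.primesBelow, ∑' e : ℕ, f (p ^ (e + 1))) := by
        rw [Real.exp_sum]
    _ ≤ Real.exp B := Real.exp_le_exp.2 (hB N)

end Pool.ASY
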